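import Pool.Agent.Helper14.QP.Main

namespace Pool.Agent.Results.MP_58a1ed_nt.CounterexampleAt267497

/-- There is an integer `n ≥ 60`, namely `n = 267497`, such that for no `k` with `1 ≤ k ≤ n - 1` the number
`m = φ(k) + φ(n - k) / 4` is an integer with `m - 1`, `m + 1` and `q(m) + 1` all prime, where `q(m)` is the number
of partitions of `m` into distinct parts. -/
theorem result : ∃ n : ℕ, n = 267497 ∧ 60 ≤ n ∧ ∀ k : ℕ, 1 ≤ k → k ≤ n - 1 →
    ¬ ∃ m : ℕ, (m : ℚ) = (Nat.totient k : ℚ) + (Nat.totient (n - k) : ℚ) / 4 ∧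
      (m - 1).Prime ∧ (m + 1).Prime ∧ ((Nat.Partition.distincts m).card + 1).Prime := by
  refine ⟨267497, rfl, by norm_num, ?_⟩
  rintro k h1 h2 ⟨m, hm, h3, h4, h5⟩
  exact Pool.Agent.Helper14.QP.main k h1 h2 m hm h3 h4 h5

end Pool.Agent.Results.MP_58a1ed_nt.CounterexampleAt267497
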